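import Pool.Agent.R3.Broom3

/-!
# Complements of double brooms with short spines (MP_4cbb29_co, Q1)

For every `r` in `{2, 3, 4}` and all `m, n > 1` the complement of the tree `S^r_{m,n}` has
`q = 2` and `MB = 3`.

The upper bound comes from explicit vectors in `ℝ³`: a matrix with orthonormal columns whose rows
are orthogonal exactly along the edges of the tree. The lower bound excludes the multiplicity
bipartitions `[N - 1, 1]` and `[N - 2, 2]` for every graph whose complement has an induced path on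
four vertices.
-/

set_option autoImplicit false

namespace Pool.Agent.Results.MP_4cbb29_co.ComplementOfDoubleBroom

open Pool.Agent.R3.Broom

theorem result : ∀ r m n : ℕ, 2 ≤ r → r ≤ 4 → 1 < m → 1 < n →
    q (doubleBroom r m n)ᶜ = 2 ∧ MB (doubleBroom r m n)ᶜ = 3 := by
  intro r m n hr hr4 hm hn
  have hadj : ∀ u v : Fin r ⊕ (Fin m ⊕ Fin n), u ≠ v → ¬ broomRel r m n u v →
      ¬ broomRel r m n v u → (doubleBroom r m n)ᶜ.Adj u v := fun u v h1 h2 h3 =>
    (compl_adj_iff r m n u v).mpr ⟨h1, h2, h3⟩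
  have hnadj : ∀ u v : Fin r ⊕ (Fin m ⊕ Fin n), broomRel r m n u v →
      ¬ (doubleBroom r m n)ᶜ.Adj u v := fun u v h1 h2 =>
    ((compl_adj_iff r m n u v).mp h2).2.1 h1
  have hnadj' : ∀ u v : Fin r ⊕ (Fin m ⊕ Fin n), broomRel r m n v u →
      ¬ (doubleBroom r m n)ᶜ.Adj u v := fun u v h1 h2 =>
    ((compl_adj_iff r m n u v).mp h2).2.2 h1
  have hframe : ∃ Q : Matrix (Fin r ⊕ (Fin m ⊕ Fin n)) (Fin 3) ℝ, Q.transpose * Q = 1 ∧
      ∀ i j, i ≠ j → (dotProduct (Q i) (Q j) ≠ 0 ↔ (doubleBroom r m n)ᶜ.Adj i j) := by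
    obtain rfl | rfl | rfl : r = 2 ∨ r = 3 ∨ r = 4 := by omega
    · exact frame_two m n hm hn
    · exact frame_three m n hm hn
    · exact frame_four m n hm hn
  obtain ⟨Q, hQ, hpat⟩ := hframe
  have hN : 6 ≤ Fintype.card (Fin r ⊕ (Fin m ⊕ Fin n)) := by
    rw [Fintype.card_sum, Fintype.card_sum, Fintype.card_fin, Fintype.card_fin, Fintype.card_fin]
    omega
  let l : Fin r ⊕ (Fin m ⊕ Fin n) := Sum.inr (Sum.inl ⟨0, by omega⟩)
  let a : Fin r ⊕ (Fin m ⊕ Fin n) := Sum.inl ⟨0, by omega⟩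
  let c : Fin r ⊕ (Fin m ⊕ Fin n) := Sum.inl ⟨1, by omega⟩
  have hla : ¬ (doubleBroom r m n)ᶜ.Adj l a := hnadj' l a rfl
  have hac : ¬ (doubleBroom r m n)ᶜ.Adj a c := hnadj a c rfl
  have hlc : (doubleBroom r m n)ᶜ.Adj l c := by
    refine hadj l c (by simp [l, c]) (fun h => h) ?_
    simp [l, c, broomRel]
  have hla' : l ≠ a := by simp [l, a]
  have hac' : a ≠ c := by simp [a, c]
  rcases Nat.lt_or_ge 2 r with h3 | h2
  · let d : Fin r ⊕ (Fin m ⊕ Fin n) := Sum.inl ⟨2, by omega⟩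
    refine q_and_MB _ Q hQ hpat hN l a c d hla hac (hnadj c d rfl) hlc ?_ ?_ hla' hac' ?_
    · refine hadj l d (by simp [l, d]) (fun h => h) ?_
      simp [l, d, broomRel]
    · refine hadj a d (by simp [a, d]) ?_ ?_ <;> simp [a, d, broomRel]
    · simp [c, d]
  · have hr2 : r = 2 := by omega
    let d : Fin r ⊕ (Fin m ⊕ Fin n) := Sum.inr (Sum.inr ⟨0, by omega⟩)
    refine q_and_MB _ Q hQ hpat hN l a c d hla hac (hnadj c d ?_) hlc ?_ ?_ hla' hac' ?_
    · show (1 : ℕ) + 1 = r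
      omega
    · exact hadj l d (by simp [l, d]) (fun h => h) (fun h => h)
    · refine hadj a d (by simp [a, d]) ?_ (fun h => h)
      show ¬ ((0 : ℕ) + 1 = r)
      omega
    · simp [c, d]

end Pool.Agent.Results.MP_4cbb29_co.ComplementOfDoubleBroom
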